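import Pool.Agent.Y882.GP.Quad

/-!
# Odd integers `n = f(p) + m`, `p` prime, `m` with at most `r` prime factors: few exceptions

For every admissible `f(x) = x² + bx + c` (`b`, `c` of opposite parity, `3 ∤ b`), every `r ≥ 2` and
`0 < θ ≤ 1 / 2` with `(1 + θ) (r + 1) > 4`: for all but `O(X ^ (max (2/3, 1 - θ, 4/(r+1) - θ) + ε))` odd
`n ≤ X` there are at least `δ n^θ / (log n)³` primes `p ≤ n^θ` such that `n - f(p) ≥ 2` has at most
`r` prime factors, all of them `≥ n^(1/(r+1))`.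

For `θ = 1 / 2`: `r = 2` gives `n = f(p) + P₂` for all but `O(X ^ (5/6 + ε))` odd `n ≤ X`, and `r = 3`
gives `n = f(p) + P₃` for all but `O(X ^ (2/3 + ε))` odd `n ≤ X`.
-/

set_option autoImplicit false

open Finset

namespace Pool.Agent.Results.MP_d9bc60_nt.QuadraticPlusAlmostPrime

open Classical in
/-- The primes `p ≤ n ^ θ` such that `n - f(p) ≥ 2` (where `f(x) = x² + bx + c`) has at most `r` prime
factors, counted with multiplicity, and all of them are at least `n ^ (1 / (r + 1))`. -/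
noncomputable def reps (b c : ℤ) (r : ℕ) (θ : ℝ) (n : ℕ) : Finset ℕ :=
  (range (n + 1)).filter (fun p : ℕ => p.Prime ∧ (p : ℝ) ≤ (n : ℝ) ^ θ ∧
    2 ≤ (n : ℤ) - ((p : ℤ) ^ 2 + b * p + c) ∧
    ((n : ℤ) - ((p : ℤ) ^ 2 + b * p + c)).natAbs.primeFactorsList.length ≤ r ∧
    ∀ q : ℕ, q.Prime → (q : ℤ) ∣ (n : ℤ) - ((p : ℤ) ^ 2 + b * p + c) →
      (n : ℝ) ^ (1 / ((r : ℝ) + 1)) ≤ q)

open Classical in
/-- All but few odd `n ≤ X` are of the form `n = f(p) + P_r`, with many `p`. -/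
theorem result (b c : ℤ) (hbc : Odd (b + c)) (hb : ¬ (3 : ℤ) ∣ b) (r : ℕ) (θ ε : ℝ) (hθ0 : 0 < θ)
    (hθ1 : θ ≤ 1 / 2) (hr : 4 < (1 + θ) * (r + 1)) (hε : 0 < ε) :
    ∃ δ C : ℝ, 0 < δ ∧ 0 < C ∧ ∀ X : ℕ, 1 ≤ X →
      (((Icc 1 X).filter (fun n : ℕ => Odd n ∧
        ((reps b c r θ n).card : ℝ) < δ * (n : ℝ) ^ θ / Real.log n ^ 3)).card : ℝ) ≤
      C * (X : ℝ) ^ (max (max (2 / 3) (1 - θ)) (4 / ((r : ℝ) + 1) - θ) + ε) := by
  open Pool.Agent.Y882.GP in
  obtain ⟨δ, C, hδ, hC, H⟩ := schz (fq b c) (by rw [fq_deg]; norm_num) (by rw [fq_monic]; norm_num)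
    r θ ε hθ0 (by rw [fq_deg]; push_cast; linarith) hr hε
  open Pool.Agent.Y882.GP in
  obtain ⟨c0, hc0, HS⟩ := sing_low
  have hE0 : (2 : ℝ) / 3 ≤ max (max (2 / 3) (1 - θ)) (4 / ((r : ℝ) + 1) - θ) :=
    (le_max_left _ _).trans (le_max_left _ _)
  obtain ⟨N1, hN1⟩ := Filter.eventually_atTop.1
    ((tendsto_natCast_atTop_atTop (R := ℝ)).eventually
      ((tendsto_rpow_atTop hθ0).eventually_ge_atTop (3 : ℝ)))
  refine ⟨δ * c0, C + (N1 + 2 : ℕ), by positivity, by positivity, fun X hX => ?_⟩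
  have hXr : (1 : ℝ) ≤ X := by exact_mod_cast hX
  have hsub : (Icc 1 X).filter (fun n : ℕ => Odd n ∧
      ((reps b c r θ n).card : ℝ) < δ * c0 * (n : ℝ) ^ θ / Real.log n ^ 3) ⊆
      (Icc 1 X).filter (fun N : ℕ => ((Pool.Agent.Y882.GP.good (Pool.Agent.Y882.GP.fq b c) r N
        ((N : ℝ) ^ θ)).card : ℝ) < δ * Pool.Agent.Y882.GP.sing (Pool.Agent.Y882.GP.fq b c) N
        ((N : ℝ) ^ θ) * ((N : ℝ) ^ θ / Real.log N ^ 2)) ∪ range (N1 + 2) := by
    intro n hn
    rw [mem_filter] at hn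
    obtain ⟨hnX, hodd, hlt⟩ := hn
    rw [mem_union]
    by_cases hsmall : n < N1 + 2
    · right
      exact mem_range.2 hsmall
    · left
      push Not at hsmall
      have hn3 : (3 : ℝ) ≤ (n : ℝ) ^ θ := hN1 n (by omega)
      have hn2 : (2 : ℝ) ≤ n := by
        have : 2 ≤ n := by omega
        exact_mod_cast this
      have hn0 : (0 : ℝ) < n := by linarith
      have hln : 0 < Real.log n := Real.log_pos (by linarith)
      rw [mem_filter]
      refine ⟨hnX, ?_⟩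
      have hs := HS b c hbc hb n hodd ((n : ℝ) ^ θ) hn3
      have hlog : Real.log ((n : ℝ) ^ θ) ≤ Real.log n := by
        rw [Real.log_rpow hn0]
        have : θ * Real.log n ≤ 1 * Real.log n := mul_le_mul_of_nonneg_right (by linarith) hln.le
        linarith
      have hlog0 : 0 < Real.log ((n : ℝ) ^ θ) := Real.log_pos (by linarith)
      have hs2 : c0 / Real.log n ≤ Pool.Agent.Y882.GP.sing (Pool.Agent.Y882.GP.fq b c) n
          ((n : ℝ) ^ θ) := le_trans (div_le_div_of_nonneg_left hc0.le hlog0 hlog) hs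
      have hcard : (Pool.Agent.Y882.GP.good (Pool.Agent.Y882.GP.fq b c) r n
          ((n : ℝ) ^ θ)).card ≤ (reps b c r θ n).card := by
        apply card_le_card
        intro p hp
        unfold Pool.Agent.Y882.GP.good at hp
        rw [mem_filter, mem_Icc, Pool.Agent.Y882.GP.fq_eval] at hp
        obtain ⟨⟨hp1, hp2⟩, hp3, hp4, hp5, hp6⟩ := hp
        have hpn : (p : ℝ) ≤ (n : ℝ) ^ θ := (Nat.le_floor_iff (by positivity)).1 hp2
        have hnn : (n : ℝ) ^ θ ≤ n := by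
          calc (n : ℝ) ^ θ ≤ (n : ℝ) ^ (1 : ℝ) :=
                Real.rpow_le_rpow_of_exponent_le (by linarith) (by linarith)
            _ = n := Real.rpow_one _
        unfold reps
        rw [mem_filter, mem_range]
        refine ⟨?_, hp3, hpn, hp4, hp5, hp6⟩
        have : (p : ℝ) ≤ n := hpn.trans hnn
        have : p ≤ n := by exact_mod_cast this
        omega
      calc ((Pool.Agent.Y882.GP.good (Pool.Agent.Y882.GP.fq b c) r n
          ((n : ℝ) ^ θ)).card : ℝ) ≤ (reps b c r θ n).card := by exact_mod_cast hcard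
        _ < δ * c0 * (n : ℝ) ^ θ / Real.log n ^ 3 := hlt
        _ = δ * (c0 / Real.log n) * ((n : ℝ) ^ θ / Real.log n ^ 2) := by
            field_simp
        _ ≤ _ := by
            apply mul_le_mul_of_nonneg_right _ (by positivity)
            exact mul_le_mul_of_nonneg_left hs2 hδ.le
  have hXE : (1 : ℝ) ≤ (X : ℝ) ^ (max (max (2 / 3) (1 - θ)) (4 / ((r : ℝ) + 1) - θ) + ε) :=
    Real.one_le_rpow hXr (by linarith)
  have h1 := card_le_card hsub
  have h2 := card_union_le ((Icc 1 X).filter (fun N : ℕ =>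
        ((Pool.Agent.Y882.GP.good (Pool.Agent.Y882.GP.fq b c) r N
        ((N : ℝ) ^ θ)).card : ℝ) < δ * Pool.Agent.Y882.GP.sing (Pool.Agent.Y882.GP.fq b c) N
        ((N : ℝ) ^ θ) * ((N : ℝ) ^ θ / Real.log N ^ 2))) (range (N1 + 2))
  rw [card_range] at h2
  have h3 := H X hX
  calc (((Icc 1 X).filter (fun n : ℕ => Odd n ∧
        ((reps b c r θ n).card : ℝ) < δ * c0 * (n : ℝ) ^ θ / Real.log n ^ 3)).card : ℝ) ≤
      (((Icc 1 X).filter (fun N : ℕ => ((Pool.Agent.Y882.GP.good (Pool.Agent.Y882.GP.fq b c) r N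
        ((N : ℝ) ^ θ)).card : ℝ) < δ * Pool.Agent.Y882.GP.sing (Pool.Agent.Y882.GP.fq b c) N
        ((N : ℝ) ^ θ) * ((N : ℝ) ^ θ / Real.log N ^ 2))).card : ℝ) + ((N1 + 2 : ℕ) : ℝ) := by
        exact_mod_cast h1.trans h2
    _ ≤ C * (X : ℝ) ^ (max (max (2 / 3) (1 - θ)) (4 / ((r : ℝ) + 1) - θ) + ε) +
        ((N1 + 2 : ℕ) : ℝ) * (X : ℝ) ^ (max (max (2 / 3) (1 - θ)) (4 / ((r : ℝ) + 1) - θ) + ε) := by
        apply add_le_add h3
        exact le_mul_of_one_le_right (Nat.cast_nonneg _) hXE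
    _ = _ := by ring

end Pool.Agent.Results.MP_d9bc60_nt.QuadraticPlusAlmostPrime
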