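import Pool.Agent.Y280.Fin2

/-!
# MP_f981b0_an: typical contractively regular operators of `ℓ_p`

Kept out of the results folder (by helper280; moved by helper187 with the lead's consent to free a
place at MP_f981b0_an).
-/

set_option autoImplicit false
open Finset TopologicalSpace Pool.Agent.Y280
open scoped ENNReal

namespace Pool.Agent.Y187.Kept.TypicalRegularContractions

variable {E : Type} [NormedAddCommGroup E] [NormedSpace ℂ E]

/-- The contractively regular operators: if `e j` is the vector with coordinates `Pi.single j 1`,
then the matrix of the absolute values of the entries `t i j = c (T (e j)) i` of `T` is a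
contraction of `ℓ_p` (all its finite sections are). -/
def RegContr (p : ℝ) (c : E →ₗ[ℂ] (ℕ → ℂ)) : Set (E →L[ℂ] E) :=
  {T | ∀ e : ℕ → E, (∀ j, c (e j) = Pi.single j 1) → ∀ (N : ℕ) (x : ℕ → ℝ), (∀ j, 0 ≤ x j) →
    ∑ i ∈ range N, (∑ j ∈ range N, ‖c (T (e j)) i‖ * x j) ^ p ≤ ∑ j ∈ range N, x j ^ p}

/-- **Typical contractively regular operators of `ℓ_p`, `1 < p < ∞`, have nontrivial closed
invariant subspaces**, in the strong and in the strong* operator topology. The spaces of
contractively regular operators are completely metrizable. -/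
theorem result (p : ℝ) (hp : 1 < p) (c : E →ₗ[ℂ] (ℕ → ℂ)) (hc : IsEllp p c)
    (t : TopologicalSpace (RegContr p c))
    (ht : t = SOT (RegContr p c) ∨ t = SOTStar (RegContr p c)) :
    (RegContr p c).Nonempty ∧ @IsCompletelyMetrizableSpace _ t ∧ @BaireSpace _ t ∧
      {T : RegContr p c | DenselyInvariant (T : E →L[ℂ] E)} ∈ @residual _ t :=
  result_reg p hp c hc _ rfl t ht

end Pool.Agent.Y187.Kept.TypicalRegularContractions
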